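import Pool.Agent.Helper6.CI.Fibre
import Pool.Agent.Helper11.Cov.Main

/-!
Integral coordinates of rational points.
-/

open MvPolynomial Pool.Agent.Helper11.Cov

namespace Pool.Agent.Helper6.CI

variable {N n : ℕ}

/-- Primitive integral coordinates. -/
theorem exists_primitive (x : Fin (N + 1) → ℚ) (hx : x ≠ 0) :
    ∃ (ξ : Fin (N + 1) → ℤ) (t : ℚ), t ≠ 0 ∧ (∀ j, x j = t * ξ j) ∧
      ∀ r : ℕ, r.Prime → ∃ j, ¬ (r : ℤ) ∣ ξ j := by
  obtain ⟨D, hD, y, hy⟩ : ∃ D : ℤ, D ≠ 0 ∧ ∃ y : Fin (N + 1) → ℤ, ∀ j, (y j : ℚ) = D * x j := by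
    refine ⟨∏ j, ((x j).den : ℤ), Finset.prod_ne_zero_iff.mpr fun j _ => by
      exact_mod_cast (x j).den_ne_zero, fun j => (x j).num * ∏ k ∈ Finset.univ.erase j,
        ((x k).den : ℤ), fun j => ?_⟩
    rw [← Finset.mul_prod_erase Finset.univ (fun k => ((x k).den : ℤ)) (Finset.mem_univ j)]
    push_cast
    have h1 := Rat.mul_den_eq_num (x j)
    rw [← h1]
    ring
  obtain ⟨ξ, hξ, hgcd⟩ := Finset.extract_gcd y (Finset.univ_nonempty (α := Fin (N + 1)))
  have hG : Finset.univ.gcd y ≠ 0 := by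
    intro h
    apply hx
    funext j
    have h1 := Finset.gcd_eq_zero_iff.mp h j (Finset.mem_univ j)
    have h2 := hy j
    rw [h1] at h2
    have h3 : (D : ℚ) ≠ 0 := by exact_mod_cast hD
    have h4 : (D : ℚ) * x j = 0 := by rw [← h2]; simp
    exact (mul_eq_zero.mp h4).resolve_left h3
  have hDq : (D : ℚ) ≠ 0 := by exact_mod_cast hD
  refine ⟨ξ, (Finset.univ.gcd y : ℤ) / D, div_ne_zero (by exact_mod_cast hG) hDq, fun j => ?_,
    fun r hr => ?_⟩
  · have h1 := hξ j (Finset.mem_univ j)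
    have h2 := hy j
    rw [h1] at h2
    push_cast at h2
    field_simp
    linarith
  · by_contra hcon
    push Not at hcon
    have h1 : (r : ℤ) ∣ Finset.univ.gcd ξ := Finset.dvd_gcd fun j _ => hcon j
    rw [hgcd] at h1
    have h2 : IsUnit (r : ℤ) := isUnit_of_dvd_one h1
    rw [Int.isUnit_iff] at h2
    have := hr.two_le
    omega

/-- Projective coordinates from weighted ones. -/
def proj {R : Type} [CommRing R] (A B D : R) : Fin 3 → R := ![A * D, B, D ^ 3]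

/-- A point in homogeneous coordinates is a point of the curve. -/
theorem exists_point {a b : ℤ} (hg : Good a b) (c : Fin 3 → ℚ) (hc : OnCurve a b c) :
    ∃ (P : (E a b).Point) (A B D : ℤ) (t : ℚ), IRep P A B D ∧ t ≠ 0 ∧
      ∀ j, c j = t * proj (A : ℚ) (B : ℚ) (D : ℚ) j := by
  obtain ⟨hc0, hc1⟩ := hc
  by_cases h2 : c 2 = 0
  · rw [h2, mul_zero, zero_pow two_ne_zero, zero_pow three_ne_zero, mul_zero, mul_zero, add_zero,
      add_zero] at hc1
    have h0 : c 0 = 0 := by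
      rw [← pow_eq_zero_iff three_ne_zero]
      exact hc1.symm
    have h1 : c 1 ≠ 0 := by
      intro h1
      apply hc0
      funext j
      fin_cases j
      · exact h0
      · exact h1
      · exact h2
    refine ⟨0, 1, 1, 0, c 1, ⟨isCoprime_one_left, isCoprime_one_left, by ring,
      Or.inl ⟨rfl, rfl, rfl, rfl⟩⟩, h1, fun j => ?_⟩
    fin_cases j
    · show c 0 = c 1 * (((1 : ℤ) : ℚ) * ((0 : ℤ) : ℚ))
      rw [h0]
      simp
    · show c 1 = c 1 * ((1 : ℤ) : ℚ)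
      simp
    · show c 2 = c 1 * (((0 : ℤ) : ℚ) ^ 3)
      rw [h2]
      simp
  · obtain ⟨P, hP⟩ := exists_at (a := a) (b := b) hg (x := c 0 / c 2) (y := c 1 / c 2) (by
      field_simp
      linear_combination hc1)
    obtain ⟨A, B, D, hrep⟩ := exists_irep P
    have hrep' := hrep
    obtain ⟨-, -, -, ⟨h0, -⟩ | ⟨x, y, hxy, hD, hx, hy⟩⟩ := hrep
    · exact absurd h0 hP.ne_zero
    · obtain ⟨rfl, rfl⟩ := hxy.unique hP
      have hD' : (D : ℚ) ≠ 0 := by exact_mod_cast hD.ne'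
      refine ⟨P, A, B, D, c 2 / D ^ 3, hrep', div_ne_zero h2 (pow_ne_zero _ hD'), fun j => ?_⟩
      fin_cases j
      · show c 0 = c 2 / D ^ 3 * ((A : ℚ) * D)
        rw [← hx]
        field_simp
      · show c 1 = c 2 / D ^ 3 * (B : ℚ)
        rw [← hy]
        field_simp
      · show c 2 = c 2 / D ^ 3 * (D : ℚ) ^ 3
        field_simp

/-- The reduction is a point of the reduced curve. -/
theorem onCurve_reduce {a b : ℤ} {P : (E a b).Point} {A B D : ℤ} (h : IRep P A B D) (r : ℕ)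
    [hr : Fact r.Prime] : OnCurve a b (proj (A : ZMod r) (B : ZMod r) (D : ZMod r)) := by
  obtain ⟨-, ⟨u, v, huv⟩, heq, -⟩ := h
  constructor
  · intro h0
    have h1 : (B : ZMod r) = 0 := congrFun h0 1
    have h2 : (D : ZMod r) ^ 3 = 0 := congrFun h0 2
    rw [pow_eq_zero_iff three_ne_zero] at h2
    have h3 := congrArg (Int.cast : ℤ → ZMod r) huv
    push_cast at h3
    rw [h1, h2, mul_zero, mul_zero, add_zero] at h3
    exact zero_ne_one h3
  · have h3 := congrArg (Int.cast : ℤ → ZMod r) heq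
    push_cast at h3
    show (B : ZMod r) ^ 2 * (D : ZMod r) ^ 3 = ((A : ZMod r) * D) ^ 3 +
      (a : ZMod r) * ((A : ZMod r) * D) * ((D : ZMod r) ^ 3) ^ 2 + (b : ZMod r) * ((D : ZMod r) ^ 3) ^ 3
    rw [h3]
    ring

/-- Points with the same reduction. -/
theorem proj_cong {a b : ℤ} {r : ℕ} [Fact r.Prime] {P P' : (E a b).Point} {A B D A' B' D' : ℤ}
    (h : IRep P A B D) (h' : IRep P' A' B' D') (hH : InH r (P' - P)) :
    ∃ u : ZMod r, u ≠ 0 ∧ ∀ j, proj (A' : ZMod r) (B' : ZMod r) (D' : ZMod r) j =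
      u * proj (A : ZMod r) (B : ZMod r) (D : ZMod r) j := by
  obtain ⟨u, hu, hA, hB, hD⟩ := h.cong h' hH
  refine ⟨u ^ 3, pow_ne_zero _ hu, fun j => ?_⟩
  rw [hA, hB, hD]
  fin_cases j
  · show u ^ 2 * (A : ZMod r) * (u * D) = u ^ 3 * ((A : ZMod r) * D)
    ring
  · show u ^ 3 * (B : ZMod r) = u ^ 3 * (B : ZMod r)
    rfl
  · show (u * (D : ZMod r)) ^ 3 = u ^ 3 * (D : ZMod r) ^ 3
    ring

/-- Vanishing modulo `r` of an integral polynomial vanishing over `ℚ`. -/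
theorem reduce_eq_zero {σ : Type} (f : MvPolynomial σ ℤ) (y : σ → ℤ) (r : ℕ)
    (h : eval₂ (Int.castRingHom ℚ) (fun v => (y v : ℚ)) f = 0) :
    eval₂ (Int.castRingHom (ZMod r)) (fun v => (y v : ZMod r)) f = 0 := by
  have h1 : ∀ (R : Type) [CommRing R], eval₂ (Int.castRingHom R) (fun v => (y v : R)) f =
      ((eval y f : ℤ) : R) := by
    intro R _
    have h2 := hom_eval₂ f (RingHom.id ℤ) (Int.castRingHom R) y
    rw [eval₂_id, RingHom.comp_id] at h2
    exact h2.symm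
  rw [h1] at h ⊢
  have h2 : eval y f = 0 := by exact_mod_cast h
  rw [h2, Int.cast_zero]

theorem proj_cast (R : Type) [CommRing R] (A B D : ℤ) (j : Fin 3) :
    ((proj A B D j : ℤ) : R) = proj (A : R) (B : R) (D : R) j := by
  fin_cases j
  · show ((A * D : ℤ) : R) = (A : R) * (D : R)
    push_cast
    rfl
  · rfl
  · show ((D ^ 3 : ℤ) : R) = (D : R) ^ 3
    push_cast
    rfl

/-- The equations of the scheme at the reduction of a rational point. -/
theorem reduce_eqn {f : MvPolynomial (Vars N n) ℤ} (hf : IsMultiHomogeneous f)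
    (x : Fin (N + 1) → ℚ) (c : Fin n → Fin 3 → ℚ)
    (hfx : eval₂ (Int.castRingHom ℚ) (Sum.elim x fun p => c p.1 p.2) f = 0)
    (ξ : Fin (N + 1) → ℤ) (t₀ : ℚ) (ht₀ : t₀ ≠ 0) (hξ : ∀ j, x j = t₀ * ξ j)
    (A B D : Fin n → ℤ) (t : Fin n → ℚ) (ht : ∀ i, t i ≠ 0)
    (hc : ∀ i j, c i j = t i * proj (A i : ℚ) (B i : ℚ) (D i : ℚ) j) (r : ℕ) :
    eval₂ (Int.castRingHom (ZMod r)) (Sum.elim (fun k => (ξ k : ZMod r))
      fun p => proj (A p.1 : ZMod r) (B p.1 : ZMod r) (D p.1 : ZMod r) p.2) f = 0 := by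
  have h3 : (Sum.elim x fun p : Fin n × Fin 3 => c p.1 p.2) =
      Sum.elim (fun k => t₀ * (fun k => (ξ k : ℚ)) k) fun p => t p.1 *
        (fun i j => ((proj (A i) (B i) (D i) j : ℤ) : ℚ)) p.1 p.2 := by
    funext v
    rcases v with k | p
    · exact hξ k
    · show c p.1 p.2 = t p.1 * ((proj (A p.1) (B p.1) (D p.1) p.2 : ℤ) : ℚ)
      rw [hc p.1 p.2, proj_cast]
  rw [h3] at hfx
  have h1 := (eval₂_scale hf (fun k => (ξ k : ℚ))
    (fun i j => ((proj (A i) (B i) (D i) j : ℤ) : ℚ)) t₀ t ht₀ ht).mp hfx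
  have h2 := reduce_eq_zero f (Sum.elim ξ fun p : Fin n × Fin 3 =>
    proj (A p.1) (B p.1) (D p.1) p.2) r (by
      rw [← h1]
      congr 1
      funext v
      rcases v with k | p
      · rfl
      · rfl)
  rw [← h2]
  congr 1
  funext v
  rcases v with k | p
  · rfl
  · exact (proj_cast (ZMod r) (A p.1) (B p.1) (D p.1) p.2).symm

/-- The same with another point of the same reduction. -/
theorem reduce_eqn' {f : MvPolynomial (Vars N n) ℤ} (hf : IsMultiHomogeneous f) {r : ℕ}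
    [Fact r.Prime] (z : Fin (N + 1) → ZMod r) (c c' : Fin n → Fin 3 → ZMod r)
    (u : Fin n → ZMod r) (hu : ∀ i, u i ≠ 0) (hc : ∀ i j, c i j = u i * c' i j)
    (h : eval₂ (Int.castRingHom (ZMod r)) (Sum.elim z fun p => c p.1 p.2) f = 0) :
    eval₂ (Int.castRingHom (ZMod r)) (Sum.elim z fun p => c' p.1 p.2) f = 0 := by
  have h3 : (Sum.elim z fun p : Fin n × Fin 3 => c p.1 p.2) =
      Sum.elim (fun k => 1 * z k) fun p => u p.1 * c' p.1 p.2 := by
    funext v
    rcases v with k | p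
    · simp
    · exact hc p.1 p.2
  rw [h3] at h
  exact (eval₂_scale hf z c' 1 u one_ne_zero hu).mp h

/-- The additional forms at the reduction of a rational point. -/
theorem reduce_form {d : ℕ} {G : MvPolynomial (Fin (N + 1)) ℤ} (hG : G.IsHomogeneous d)
    (x : Fin (N + 1) → ℚ) (hGx : eval₂ (Int.castRingHom ℚ) x G = 0)
    (ξ : Fin (N + 1) → ℤ) (t₀ : ℚ) (ht₀ : t₀ ≠ 0) (hξ : ∀ j, x j = t₀ * ξ j) (r : ℕ) :
    eval₂ (Int.castRingHom (ZMod r)) (fun k => (ξ k : ZMod r)) G = 0 := by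
  have h1 : eval₂ (Int.castRingHom ℚ) (fun k => (ξ k : ℚ)) G = 0 := by
    have h3 : x = fun v => t₀ ^ (fun _ => 1 : Fin (N + 1) → ℕ) v * (fun k => (ξ k : ℚ)) v := by
      funext v
      rw [pow_one]
      exact hξ v
    rw [h3, eval₂_weighted (w := fun _ => 1) (k := d) hG, mul_eq_zero] at hGx
    exact hGx.resolve_left (pow_ne_zero _ ht₀)
  exact reduce_eq_zero G ξ r h1

end Pool.Agent.Helper6.CI
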