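import Mathlib

/-!
Definitions: closed subschemes of the product of a projective space with a product of elliptic
curves, in homogeneous coordinates.
-/

open AlgebraicGeometry CategoryTheory

namespace Pool.Agent.Helper6.CI

/-- The variables: homogeneous coordinates `ξ 0, …, ξ N` of the projective space `P^N`, and
`(X i, Y i, Z i)`, `i < n`, of `n` projective planes. -/
abbrev Vars (N n : ℕ) : Type := Fin (N + 1) ⊕ Fin n × Fin 3

/-- The polynomial is homogeneous in the variables `ξ` and in each of the triples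
`(X i, Y i, Z i)`. -/
def IsMultiHomogeneous {N n : ℕ} (f : MvPolynomial (Vars N n) ℤ) : Prop :=
  (∃ k, f.IsWeightedHomogeneous (Sum.elim (fun _ => 1) fun _ => 0) k) ∧
    ∀ i, ∃ k, f.IsWeightedHomogeneous (Sum.elim (fun _ => 0) fun p => if p.1 = i then 1 else 0) k

/-- `c` are homogeneous coordinates `(X : Y : Z)` over `Ω` of a point of the projective curve
`Y²Z = X³ + aXZ² + bZ³`. -/
def OnCurve {Ω : Type} [CommRing Ω] (a b : ℤ) (c : Fin 3 → Ω) : Prop :=
  c ≠ 0 ∧ c 1 ^ 2 * c 2 = c 0 ^ 3 + a * c 0 * c 2 ^ 2 + b * c 2 ^ 3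

/-- Substitution of the elements `c i 0, c i 1, c i 2` of `Ω` for `X i, Y i, Z i`. -/
noncomputable def substitute {N n : ℕ} {Ω : Type} [CommRing Ω] (c : Fin n → Fin 3 → Ω) :
    MvPolynomial (Vars N n) ℤ →+* MvPolynomial (Fin (N + 1)) Ω :=
  MvPolynomial.eval₂Hom (Int.castRingHom _)
    (Sum.elim MvPolynomial.X fun p => MvPolynomial.C (c p.1 p.2))

/-- The homogeneous ideal in `Ω[ξ 0, …, ξ N]` that defines the fibre, over the point with
coordinates `c` of the product of the planes, of the closed subscheme `I = 0` of the product of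
`P^N` and these planes. -/
noncomputable def fibreIdeal {N n : ℕ} (I : Set (MvPolynomial (Vars N n) ℤ)) {Ω : Type}
    [CommRing Ω] (c : Fin n → Fin 3 → Ω) : Ideal (MvPolynomial (Fin (N + 1)) Ω) :=
  Ideal.span (substitute c '' I)

/-- `(x, c)` are homogeneous coordinates over `Ω` of a point of `P^N × E 0 × … × E (n-1)`, where
`E i` is the curve `Y²Z = X³ + (a i)XZ² + (b i)Z³`, at which the polynomials in `I` and the forms
`F 0, …, F (e-1)` in the coordinates of `P^N` vanish. -/
def IsPoint {N n e : ℕ} (a b : Fin n → ℤ) (I : Set (MvPolynomial (Vars N n) ℤ))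
    (F : Fin e → MvPolynomial (Fin (N + 1)) ℤ) {Ω : Type} [CommRing Ω] (x : Fin (N + 1) → Ω)
    (c : Fin n → Fin 3 → Ω) : Prop :=
  x ≠ 0 ∧ (∀ i, OnCurve (a i) (b i) (c i)) ∧
    (∀ f ∈ I, MvPolynomial.eval₂ (Int.castRingHom Ω) (Sum.elim x fun p => c p.1 p.2) f = 0) ∧
    ∀ i, MvPolynomial.eval₂ (Int.castRingHom Ω) x (F i) = 0

/-- The tuples `F 0, …, F (e-1)` of forms in `N + 1` variables, `F i` of degree `d i`, with integer
coefficients of absolute value at most `H`. -/
def FormBox (N : ℕ) {e : ℕ} (d : Fin e → ℕ) (H : ℕ) : Set (Fin e → MvPolynomial (Fin (N + 1)) ℤ) :=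
  {F | ∀ i, (F i).IsHomogeneous (d i) ∧ ∀ m, |(F i).coeff m| ≤ H}

/-- The set `V(ℚ)` of rational points of a scheme `V` over `ℚ`, as a set of points of `V`: the
images of the sections of the structure morphism. -/
def rationalPoints {V : Scheme.{0}} (s : V ⟶ Spec (.of ℚ)) : Set V :=
  {P | ∃ σ : Spec (.of ℚ) ⟶ V, σ ≫ s = 𝟙 _ ∧ σ (IsLocalRing.closedPoint ℚ) = P}

end Pool.Agent.Helper6.CI
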