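import Pool.Agent.Helper6.RH.Count
import Pool.Agent.Helper6.RD.Bonf

/-!
Random forms over a finite field: the values at few points of projective space are independent, and
a positive proportion of the tuples has no common zero on a small set of points.
-/

namespace Pool.Agent.Helper6.CI

open Finset Pool.Agent.Helper6.RH Pool.Agent.Helper6.RD

section field
variable {F : Type*} [Field F] {n : ℕ}

/-- `z` is not a multiple of `t`. -/
def Ind1 (t z : Fin (n + 1) → F) : Prop := ∀ s : F, z ≠ s • t

/-- A form vanishing at given points and not at another one. -/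
theorem exists_sepF (D : ℕ) (T : Finset (Fin (n + 1) → F)) (hT : T.card ≤ D)
    (z : Fin (n + 1) → F) (hz0 : z ≠ 0) (hz : ∀ t ∈ T, Ind1 t z) :
    ∃ c : Mon n D → F, ev c z ≠ 0 ∧ ∀ t ∈ T, ev c t = 0 := by
  classical
  have hlin : ∀ γ : Module.Dual F (Fin (n + 1) → F), ∃ P : MvPolynomial (Fin (n + 1)) F,
      P.IsHomogeneous 1 ∧ ∀ x, MvPolynomial.eval x P = γ x := by
    intro γ
    refine ⟨∑ j, MvPolynomial.C (γ (Pi.single j 1)) * MvPolynomial.X j, ?_, fun x => ?_⟩
    · apply MvPolynomial.IsHomogeneous.sum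
      intro j _
      have := (MvPolynomial.isHomogeneous_C (Fin (n + 1)) (γ (Pi.single j 1))).mul
        (MvPolynomial.isHomogeneous_X F j)
      rwa [zero_add] at this
    · rw [map_sum]
      conv_rhs => rw [← Finset.univ_sum_single x, map_sum]
      refine sum_congr rfl fun j _ => ?_
      have : (Pi.single j (x j) : Fin (n + 1) → F) = x j • Pi.single j 1 := by
        rw [← Pi.single_smul, smul_eq_mul, mul_one]
      rw [map_mul, MvPolynomial.eval_C, MvPolynomial.eval_X, this, map_smul, smul_eq_mul, mul_comm]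
  have hex : ∀ t : Fin (n + 1) → F, ∃ P : MvPolynomial (Fin (n + 1)) F, P.IsHomogeneous 1 ∧
      (Ind1 t z → MvPolynomial.eval z P ≠ 0) ∧ MvPolynomial.eval t P = 0 := by
    intro t
    by_cases h : Ind1 t z
    · have h1 : z ∉ Submodule.span F {t} := by
        rw [Submodule.mem_span_singleton]
        rintro ⟨s, hs⟩
        exact h s hs.symm
      obtain ⟨γ, hγ, hγ'⟩ := exists_dual _ z h1
      obtain ⟨P, hP, hP'⟩ := hlin γ
      refine ⟨P, hP, fun _ => ?_, ?_⟩
      · rw [hP', hγ]
        exact one_ne_zero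
      · rw [hP']
        exact hγ' t (Submodule.mem_span_singleton_self t)
    · exact ⟨0, MvPolynomial.isHomogeneous_zero _ _ _, fun h' => absurd h' h, by simp⟩
  choose P hP1 hP2 hP3 using hex
  obtain ⟨δ, hδ, -⟩ := exists_dual ⊥ z (by simpa using hz0)
  obtain ⟨Q, hQ, hQ'⟩ := hlin δ
  have hhom : (Q ^ (D - T.card) * ∏ t ∈ T, P t).IsHomogeneous D := by
    have h1 := (hQ.pow (D - T.card)).mul
      (MvPolynomial.IsHomogeneous.prod T P (fun _ => 1) (fun t _ => hP1 t))
    rw [one_mul, sum_const, smul_eq_mul, mul_one, Nat.sub_add_cancel hT] at h1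
    exact h1
  refine ⟨vec (Q ^ (D - T.card) * ∏ t ∈ T, P t) D, ?_, fun t ht => ?_⟩
  · rw [ev_vec _ hhom, map_mul, map_pow, hQ', hδ, one_pow, one_mul, map_prod, prod_ne_zero_iff]
    exact fun t ht => hP2 t (hz t ht)
  · rw [ev_vec _ hhom, map_mul, map_prod, prod_eq_zero ht (hP3 t), mul_zero]

end field

section main
variable {F : Type*} [Field F] [Fintype F] [DecidableEq F] {n : ℕ} {ι : Type*} [Fintype ι]
  [DecidableEq ι] (d : ι → ℕ)

/-- A set of nonzero vectors no two of which are proportional. -/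
def PI (Z : Finset (Fin (n + 1) → F)) : Prop := ∀ z ∈ Z, z ≠ 0 ∧ ∀ t ∈ Z, t ≠ z → Ind1 t z

omit [Fintype F] [DecidableEq F] in
theorem PI.mono {Z T : Finset (Fin (n + 1) → F)} (hZ : PI Z) (h : T ⊆ Z) : PI T :=
  fun z hz => ⟨(hZ z (h hz)).1, fun t ht htz => (hZ z (h hz)).2 t (h ht) htz⟩

/-- The tuples with the values `u z` at all points `z` of `T`. -/
def AT (u : (Fin (n + 1) → F) → ι → F) (T : Finset (Fin (n + 1) → F)) : Finset (Tup F n d) :=
  univ.filter fun c => ∀ z ∈ T, ∀ i, ev (c i) z = u z i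

/-- **Independence.** -/
theorem card_AT (u : (Fin (n + 1) → F) → ι → F) (T : Finset (Fin (n + 1) → F)) (hPI : PI T)
    (hT : ∀ i, T.card ≤ d i + 1) :
    (AT d u T).card * Fintype.card F ^ (Fintype.card ι * T.card) = Fintype.card (Tup F n d) := by
  induction T using Finset.induction_on with
  | empty => simp [AT]
  | insert z T hz ih =>
    rw [card_insert_of_notMem hz] at hT
    have ih' := ih (hPI.mono (subset_insert _ _)) (fun i => by have := hT i; omega)
    have hz' := hPI z (mem_insert_self _ _)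
    have hQ : ∀ i, ∃ c : Mon n (d i) → F, ev c z ≠ 0 ∧ ∀ t ∈ T, ev c t = 0 := fun i =>
      exists_sepF (d i) T (by have := hT i; omega) z hz'.1
        (fun t ht => hz'.2 t (mem_insert_of_mem ht) (fun h => hz (h ▸ ht)))
    choose Q hQ1 hQ2 using hQ
    have h1 : AT d u (insert z T) = (AT d u T).filter fun c => ∀ i, ev (c i) z = u z i := by
      unfold AT
      rw [filter_filter]
      refine filter_congr fun c _ => ?_
      rw [forall_mem_insert]
      exact and_comm
    have h2 := impose_all d (AT d u T) z (u z) Q hQ1 (by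
      intro c hc i t
      unfold AT at hc ⊢
      rw [mem_filter] at hc ⊢
      refine ⟨mem_univ _, fun w hw j => ?_⟩
      rw [← hc.2 w hw j]
      exact ev_translate d c Q i j t w (fun _ => hQ2 i w hw))
    rw [h1, card_insert_of_notMem hz, mul_add, mul_one, pow_add, mul_comm (_ ^ _) (_ ^ _),
      ← mul_assoc, h2]
    exact ih'

/-- number of solutions in `Z` -/
def NZ (u : (Fin (n + 1) → F) → ι → F) (Z : Finset (Fin (n + 1) → F)) (c : Tup F n d) : ℕ :=
  (Z.filter fun z => ∀ i, ev (c i) z = u z i).card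

theorem sum_choose (u : (Fin (n + 1) → F) → ι → F) (Z : Finset (Fin (n + 1) → F)) (hPI : PI Z)
    (k : ℕ) (hk : ∀ i, k ≤ d i + 1) :
    (∑ c : Tup F n d, (NZ d u Z c).choose k) * Fintype.card F ^ (Fintype.card ι * k) =
      Z.card.choose k * Fintype.card (Tup F n d) := by
  classical
  have h1 : ∀ c : Tup F n d, (NZ d u Z c).choose k =
      ∑ T ∈ powersetCard k Z, if c ∈ AT d u T then 1 else 0 := by
    intro c
    unfold NZ
    rw [← card_powersetCard, ← card_filter]
    congr 1
    ext T
    simp only [mem_powersetCard, mem_filter, AT, mem_univ, true_and]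
    constructor
    · rintro ⟨h1, h2⟩
      exact ⟨⟨h1.trans (filter_subset _ _), h2⟩, fun z hz => (mem_filter.mp (h1 hz)).2⟩
    · rintro ⟨⟨h1, h2⟩, h3⟩
      exact ⟨fun z hz => mem_filter.mpr ⟨h1 hz, h3 z hz⟩, h2⟩
  simp only [h1]
  rw [sum_comm, sum_mul]
  have h2 : ∀ T ∈ powersetCard k Z, (∑ c : Tup F n d, if c ∈ AT d u T then 1 else 0) *
      Fintype.card F ^ (Fintype.card ι * k) = Fintype.card (Tup F n d) := by
    intro T hT
    rw [mem_powersetCard] at hT
    rw [← card_filter]
    have h3 : univ.filter (fun c => c ∈ AT d u T) = AT d u T := by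
      ext c
      simp
    rw [h3, ← hT.2]
    exact card_AT d u T (hPI.mono hT.1) (fun i => by rw [hT.2]; exact hk i)
  rw [sum_congr rfl h2, sum_const, card_powersetCard, smul_eq_mul]

/-- **A positive proportion of the tuples has no solution in `Z`.** -/
theorem few_solvable {K : ℕ} (hK : Odd K) {θ C : ℝ}
    (hθ : ∀ (n : ℕ) (p : ℝ), 0 ≤ p → p ≤ 1 / 2 → n * p ≤ C → θ ≤ bs K n p)
    (hd : ∀ i, K ≤ d i) (hι : 0 < Fintype.card ι) (u : (Fin (n + 1) → F) → ι → F)
    (Z : Finset (Fin (n + 1) → F)) (hPI : PI Z)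
    (hZ : (Z.card : ℝ) ≤ C * (Fintype.card F : ℝ) ^ Fintype.card ι) :
    ∃ SS : Finset (Tup F n d), (∀ c, (∃ z ∈ Z, ∀ i, ev (c i) z = u z i) → c ∈ SS) ∧
      (SS.card : ℝ) ≤ (1 - θ) * Fintype.card (Tup F n d) := by
  classical
  refine ⟨univ.filter fun c => NZ d u Z c ≠ 0, ?_, ?_⟩
  · rintro c ⟨z, hz, hz'⟩
    rw [mem_filter]
    refine ⟨mem_univ _, ?_⟩
    unfold NZ
    rw [← Nat.pos_iff_ne_zero, card_pos]
    exact ⟨z, mem_filter.mpr ⟨hz, hz'⟩⟩
  · set E := Fintype.card (Tup F n d) with hE
    set q := Fintype.card F with hq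
    set e := Fintype.card ι with he
    have hq2 : 2 ≤ q := Fintype.one_lt_card
    have hqr : (2 : ℝ) ≤ q := by exact_mod_cast hq2
    set p : ℝ := ((q : ℝ) ^ e)⁻¹ with hp
    have hqe : (2 : ℝ) ≤ (q : ℝ) ^ e := by
      calc (2 : ℝ) ≤ q := hqr
        _ = (q : ℝ) ^ 1 := (pow_one _).symm
        _ ≤ (q : ℝ) ^ e := pow_le_pow_right₀ (by linarith) hι
    have hp0 : 0 ≤ p := by rw [hp]; positivity
    have hp2 : p ≤ 1 / 2 := by
      rw [hp, one_div]
      exact inv_anti₀ (by norm_num) hqe
    have hnp : (Z.card : ℝ) * p ≤ C := by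
      rw [hp, ← div_eq_mul_inv, div_le_iff₀ (by linarith)]
      exact hZ
    have h1 := hθ Z.card p hp0 hp2 hnp
    -- the sums of binomial coefficients
    have h2 : ∀ k ∈ range (K + 1), ∑ c : Tup F n d, ((NZ d u Z c).choose k : ℝ) =
        (Z.card.choose k) * p ^ k * E := by
      intro k hk
      rw [mem_range] at hk
      have h3 := sum_choose d u Z hPI k (fun i => by have := hd i; omega)
      have h4 : (∑ c : Tup F n d, ((NZ d u Z c).choose k : ℝ)) * (q : ℝ) ^ (e * k) =
          (Z.card.choose k) * E := by exact_mod_cast h3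
      have h5 : (q : ℝ) ^ (e * k) ≠ 0 := by positivity
      rw [← mul_right_cancel_iff_of_pos (show (0 : ℝ) < (q : ℝ) ^ (e * k) by positivity), h4, hp,
        inv_pow, ← pow_mul]
      field_simp
    have h3 : ∑ c : Tup F n d, ∑ k ∈ range (K + 1), (-1 : ℝ) ^ k * ((NZ d u Z c).choose k) =
        bs K Z.card p * E := by
      rw [sum_comm]
      unfold bs
      rw [sum_mul]
      refine sum_congr rfl fun k hk => ?_
      rw [← mul_sum, h2 k hk]
      ring
    have h4 : bs K Z.card p * E ≤ ((univ.filter fun c : Tup F n d => NZ d u Z c = 0).card : ℝ) := by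
      rw [← h3, card_filter]
      push_cast
      exact sum_le_sum fun c _ => bonferroni _ K hK
    have h5 : (univ.filter fun c : Tup F n d => NZ d u Z c = 0).card +
        (univ.filter fun c : Tup F n d => NZ d u Z c ≠ 0).card = E := by
      rw [hE, ← card_univ]
      exact card_filter_add_card_filter_not _
    have h6 : ((univ.filter fun c : Tup F n d => NZ d u Z c ≠ 0).card : ℝ) =
        E - ((univ.filter fun c : Tup F n d => NZ d u Z c = 0).card : ℝ) := by
      rw [eq_sub_iff_add_eq, add_comm]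
      exact_mod_cast h5
    rw [h6]
    have h7 : θ * E ≤ bs K Z.card p * E := mul_le_mul_of_nonneg_right h1 (by positivity)
    linarith

/-- Representatives of the points of projective space in a cone. -/
theorem exists_reps (Y : Finset (Fin (n + 1) → F)) (hY : ∀ z ∈ Y, ∀ t : F, t • z ∈ Y) :
    ∃ Z : Finset (Fin (n + 1) → F), Z ⊆ Y ∧ PI Z ∧
      (∀ y ∈ Y, y ≠ 0 → ∃ z ∈ Z, ∃ t : F, t ≠ 0 ∧ y = t • z) ∧
      Z.card * (Fintype.card F - 1) ≤ Y.card := by
  classical
  -- normalised vectors: first nonzero coordinate equal to one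
  let norm : (Fin (n + 1) → F) → Prop := fun z => ∃ j, z j = 1 ∧ ∀ k < j, z k = 0
  refine ⟨Y.filter norm, filter_subset _ _, ?_, ?_, ?_⟩
  · intro z hz
    rw [mem_filter] at hz
    obtain ⟨j, hj, hj'⟩ := hz.2
    refine ⟨fun h => one_ne_zero (hj.symm.trans (congrFun h j)), fun t ht htz s hs => ?_⟩
    rw [mem_filter] at ht
    obtain ⟨k, hk, hk'⟩ := ht.2
    have h1 : z k = s := by rw [hs, Pi.smul_apply, hk, smul_eq_mul, mul_one]
    have hs0 : s ≠ 0 := by
      rintro rfl
      rw [zero_smul] at hs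
      rw [hs] at hj
      exact zero_ne_one hj
    have hjk : j = k := by
      rcases lt_trichotomy j k with h | h | h
      · exfalso
        have : z j = 0 := by rw [hs, Pi.smul_apply, hk' j h, smul_zero]
        rw [hj] at this
        exact one_ne_zero this
      · exact h
      · exfalso
        rw [hj' k h] at h1
        exact hs0 h1.symm
    subst hjk
    rw [hj] at h1
    rw [← h1, one_smul] at hs
    exact htz hs.symm
  · intro y hy hy0
    obtain ⟨j, hj, hj'⟩ : ∃ j, y j ≠ 0 ∧ ∀ k < j, y k = 0 := by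
      have hne : (univ.filter fun j => y j ≠ 0).Nonempty := by
        obtain ⟨j, hj⟩ := Function.ne_iff.mp hy0
        exact ⟨j, by simpa using hj⟩
      refine ⟨(univ.filter fun j => y j ≠ 0).min' hne, ?_, fun k hk => ?_⟩
      · exact (mem_filter.mp (min'_mem _ hne)).2
      · by_contra h
        exact absurd (min'_le _ k (mem_filter.mpr ⟨mem_univ _, h⟩)) (not_le.mpr hk)
    refine ⟨(y j)⁻¹ • y, mem_filter.mpr ⟨hY y hy _, j, ?_, fun k hk => ?_⟩, y j, hj, ?_⟩
    · rw [Pi.smul_apply, smul_eq_mul, inv_mul_cancel₀ hj]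
    · rw [Pi.smul_apply, hj' k hk, smul_zero]
    · rw [smul_smul, mul_inv_cancel₀ hj, one_smul]
  · have hq : Fintype.card F - 1 = (univ.filter fun t : F => t ≠ 0).card := by
      rw [filter_ne', card_erase_of_mem (mem_univ _), card_univ]
    rw [hq, ← card_product]
    refine card_le_card_of_injOn (fun p => p.2 • p.1) ?_ ?_
    · rintro ⟨z, t⟩ hp
      rw [mem_coe, mem_product, mem_filter] at hp
      exact hY z hp.1.1 t
    · rintro ⟨z, t⟩ hp ⟨z', t'⟩ hp' h
      rw [mem_coe, mem_product, mem_filter, mem_filter] at hp hp'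
      obtain ⟨⟨-, j, hj, hj'⟩, -, ht⟩ := hp
      obtain ⟨⟨-, k, hk, hk'⟩, -, ht'⟩ := hp'
      simp only at h ht ht' hj hj' hk hk'
      have hjk : j = k := by
        rcases lt_trichotomy j k with h1 | h1 | h1
        · exfalso
          have h2 := congrFun h j
          rw [Pi.smul_apply, Pi.smul_apply, hj, hk' j h1, smul_eq_mul, mul_one, smul_zero] at h2
          exact ht h2
        · exact h1
        · exfalso
          have h2 := congrFun h k
          rw [Pi.smul_apply, Pi.smul_apply, hk, hj' k h1, smul_eq_mul, smul_eq_mul, mul_zero,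
            mul_one] at h2
          exact ht' h2.symm
      subst hjk
      have h2 := congrFun h j
      rw [Pi.smul_apply, Pi.smul_apply, hk, hj, smul_eq_mul, smul_eq_mul, mul_one, mul_one] at h2
      subst h2
      have h3 : z = z' := smul_right_injective _ ht h
      rw [h3]

end main

end Pool.Agent.Helper6.CI
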