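import Pool.Agent.Helper6.RD.Count
import Pool.Agent.Helper6.CI.Defs
import Pool.Agent.Helper6.CI.Indep

/-!
The fibres over finite fields have few points, uniformly.
-/

open MvPolynomial Pool.Agent.Helper6.RD

namespace Pool.Agent.Helper6.CI

variable {N n : ℕ}

/-- compatibility of substitutions with ring homomorphisms -/
theorem map_substitute {R S : Type} [CommRing R] [CommRing S] (ψ : R →+* S)
    (c : Fin n → Fin 3 → R) (f : MvPolynomial (Vars N n) ℤ) :
    MvPolynomial.map ψ (substitute c f) = substitute (fun i j => ψ (c i j)) f := by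
  unfold substitute
  rw [coe_eval₂Hom, coe_eval₂Hom, hom_eval₂]
  congr 1
  · exact RingHom.ext_int _ _
  · funext v
    rcases v with j | p
    · simp
    · simp

theorem eval_substitute {R S : Type} [CommRing R] [CommRing S] (ψ : R →+* S)
    (c : Fin n → Fin 3 → R) (x : Fin (N + 1) → S) (f : MvPolynomial (Vars N n) ℤ) :
    eval₂ ψ x (substitute c f) =
      eval₂ (Int.castRingHom S) (Sum.elim x fun p => ψ (c p.1 p.2)) f := by
  unfold substitute
  rw [coe_eval₂Hom, ← coe_eval₂Hom (f := ψ), hom_eval₂]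
  congr 1
  · exact RingHom.ext_int _ _
  · funext v
    rcases v with j | p
    · simp
    · simp

/-- The coordinate ring of a piece of the product of the curves. -/
abbrev PR (n : ℕ) : Type := MvPolynomial (Fin n × Fin 2) ℤ

/-- The coordinates of the points of a piece: affine points for `s i = true`, and the origin for
`s i = false`. -/
noncomputable def coordP (s : Fin n → Bool) (i : Fin n) : Fin 3 → PR n :=
  if s i then ![X (i, 0), X (i, 1), 1] else ![0, 1, 0]

/-- The Weierstrass equation. -/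
def weier {R : Type} [CommRing R] (a b : ℤ) (c : Fin 3 → R) : R :=
  c 1 ^ 2 * c 2 - (c 0 ^ 3 + a * c 0 * c 2 ^ 2 + b * c 2 ^ 3)

theorem weier_map {R S : Type} [CommRing R] [CommRing S] (ψ : R →+* S) (a b : ℤ)
    (c : Fin 3 → R) : weier a b (fun j => ψ (c j)) = ψ (weier a b c) := by
  unfold weier
  simp only [map_sub, map_add, map_mul, map_pow, map_intCast]

/-- The ideal of the piece. -/
noncomputable def pieceIdeal (a b : Fin n → ℤ) (I : Set (MvPolynomial (Vars N n) ℤ))
    (s : Fin n → Bool) : Ideal (MvPolynomial (Fin (N + 1)) (PR n)) :=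
  fibreIdeal I (coordP s) ⊔ Ideal.span (Set.range fun i => C (weier (a i) (b i) (coordP s i)))

theorem coordP_ne {R : Type} [CommRing R] [Nontrivial R] (ψ : PR n →+* R) (s : Fin n → Bool)
    (i : Fin n) : (fun j => ψ (coordP s i j)) ≠ 0 := by
  intro h
  unfold coordP at h
  split_ifs at h
  · have := congrFun h 2
    simp at this
  · have := congrFun h 1
    simp at this

/-- The fibre dimension. -/
theorem fibre_dim (a b : Fin n → ℤ) (I : Set (MvPolynomial (Vars N n) ℤ)) (e : ℕ)
    (hdim : ∀ (Ω : Type) [Field Ω] [CharZero Ω] (c : Fin n → Fin 3 → Ω),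
      (∀ i, OnCurve (a i) (b i) (c i)) →
        ringKrullDim (MvPolynomial (Fin (N + 1)) Ω ⧸ fibreIdeal I c) ≤ e + 1)
    (s : Fin n → Bool) (A : Type) [CommRing A] [Algebra (PR n) A] (x : Fin (N + 1) → A)
    (hx : Function.Surjective (aeval x : MvPolynomial (Fin (N + 1)) (PR n) →ₐ[PR n] A))
    (hI : ∀ P ∈ pieceIdeal a b I s, aeval x P = 0) (p : Ideal (PR n)) [p.IsPrime]
    (hp : p.comap (algebraMap ℤ (PR n)) = ⊥) :
    ringKrullDim (p.Fiber A) ≤ (e + 1 : ℕ) := by
  classical
  have hchar : CharZero p.ResidueField := by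
    refine charZero_of_inj_zero fun m hm => ?_
    have h1 : algebraMap (PR n) p.ResidueField (m : PR n) = 0 := by rw [map_natCast]; exact hm
    rw [Ideal.algebraMap_residueField_eq_zero] at h1
    have h2 : (m : ℤ) ∈ p.comap (algebraMap ℤ (PR n)) := by
      rw [Ideal.mem_comap]
      simpa using h1
    rw [hp, Ideal.mem_bot] at h2
    exact_mod_cast h2
  let cb : Fin n → Fin 3 → p.ResidueField := fun i j =>
    algebraMap (PR n) p.ResidueField (coordP s i j)
  let toF : MvPolynomial (Fin (N + 1)) p.ResidueField →ₐ[p.ResidueField] p.Fiber A :=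
    aeval fun j => (1 ⊗ₜ[PR n] (x j) : p.Fiber A)
  -- compatibility
  have hcomp : ∀ P : MvPolynomial (Fin (N + 1)) (PR n),
      toF (MvPolynomial.map (algebraMap (PR n) p.ResidueField) P) =
        (1 ⊗ₜ[PR n] (aeval x P) : p.Fiber A) := by
    intro P
    have h1 : (toF.toRingHom.comp (MvPolynomial.map (algebraMap (PR n) p.ResidueField))) =
        ((Algebra.TensorProduct.includeRight (R := PR n) (A := p.ResidueField)
          (B := A)).toRingHom.comp (aeval x).toRingHom) := by
      apply MvPolynomial.ringHom_ext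
      · intro r
        simp only [RingHom.comp_apply, MvPolynomial.map_C, AlgHom.toRingHom_eq_coe,
          RingHom.coe_coe, toF, MvPolynomial.algHom_C]
        rw [Algebra.TensorProduct.includeRight_apply, Algebra.TensorProduct.algebraMap_apply]
        rw [Algebra.algebraMap_self_apply, Algebra.algebraMap_eq_smul_one r,
          Algebra.algebraMap_eq_smul_one (A := A) r, TensorProduct.tmul_smul,
          TensorProduct.smul_tmul']
      · intro j
        simp only [RingHom.comp_apply, MvPolynomial.map_X, AlgHom.toRingHom_eq_coe,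
          RingHom.coe_coe, toF, MvPolynomial.aeval_X]
        rfl
    exact congrArg (fun θ => θ P) h1
  have hker : ∀ P ∈ pieceIdeal a b I s,
      toF (MvPolynomial.map (algebraMap (PR n) p.ResidueField) P) = 0 := by
    intro P hP
    rw [hcomp, hI P hP, TensorProduct.tmul_zero]
  by_cases hE : ∀ i, OnCurve (a i) (b i) (cb i)
  · have h1 := hdim p.ResidueField cb hE
    have hsurj : Function.Surjective toF := by
      intro z
      induction z using TensorProduct.induction_on with
      | zero => exact ⟨0, map_zero _⟩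
      | tmul u v =>
        obtain ⟨P, rfl⟩ := hx v
        refine ⟨u • MvPolynomial.map (algebraMap (PR n) p.ResidueField) P, ?_⟩
        rw [map_smul, hcomp, TensorProduct.smul_tmul', smul_eq_mul, mul_one]
      | add u v hu hv =>
        obtain ⟨P, rfl⟩ := hu
        obtain ⟨Q, rfl⟩ := hv
        exact ⟨P + Q, map_add _ _ _⟩
    have hle : fibreIdeal I cb ≤ RingHom.ker toF.toRingHom := by
      unfold fibreIdeal
      rw [Ideal.span_le]
      rintro _ ⟨f, hf, rfl⟩
      rw [SetLike.mem_coe, RingHom.mem_ker]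
      have h2 : substitute cb f =
          MvPolynomial.map (algebraMap (PR n) p.ResidueField) (substitute (coordP s) f) :=
        (map_substitute _ _ _).symm
      rw [h2]
      exact hker _ (Ideal.mem_sup_left (Ideal.subset_span ⟨f, hf, rfl⟩))
    have hsurj' : Function.Surjective (Ideal.Quotient.lift (fibreIdeal I cb) toF.toRingHom
        fun x hx => hle hx) :=
      Ideal.Quotient.lift_surjective_of_surjective _ _ hsurj
    have h3 : ringKrullDim (p.Fiber A) ≤
        ringKrullDim (MvPolynomial (Fin (N + 1)) p.ResidueField ⧸ fibreIdeal I cb) :=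
      ringKrullDim_le_of_surjective (Ideal.Quotient.lift (fibreIdeal I cb) toF.toRingHom
        fun x hx => hle hx) hsurj'
    refine h3.trans ?_
    exact_mod_cast h1
  · rw [not_forall] at hE
    obtain ⟨i, hi⟩ := hE
    have hne := coordP_ne (algebraMap (PR n) p.ResidueField) s i
    have hw : weier (a i) (b i) (cb i) ≠ 0 := by
      intro h
      apply hi
      exact ⟨hne, sub_eq_zero.mp h⟩
    have h2 := hker (C (weier (a i) (b i) (coordP s i)))
      (Ideal.mem_sup_right (Ideal.subset_span ⟨i, rfl⟩))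
    rw [MvPolynomial.map_C, ← weier_map, MvPolynomial.algHom_C] at h2
    have hsub : Subsingleton (p.Fiber A) := by
      rw [← not_nontrivial_iff_subsingleton]
      intro hnt
      exact hw ((map_eq_zero_iff _ (algebraMap p.ResidueField (p.Fiber A)).injective).mp h2)
    rw [ringKrullDim_eq_bot_of_subsingleton]
    exact bot_le

/-- The coordinate ring of a piece. -/
theorem exists_ring (J : Ideal (MvPolynomial (Fin (N + 1)) (PR n))) :
    ∃ (A : Type) (_ : CommRing A) (_ : Algebra (PR n) A) (x : Fin (N + 1) → A),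
      Function.Surjective (aeval x : MvPolynomial (Fin (N + 1)) (PR n) →ₐ[PR n] A) ∧
      (∀ P ∈ J, aeval x P = 0) ∧
      ∀ (S : Type) [CommRing S] (ψ : PR n →+* S) (y : Fin (N + 1) → S),
        (∀ P ∈ J, eval₂ ψ y P = 0) → ∃ φ : A →+* S, φ.comp (algebraMap (PR n) A) = ψ ∧
          ∀ j, φ (x j) = y j := by
  have haev : ∀ P : MvPolynomial (Fin (N + 1)) (PR n),
      aeval (fun j => Ideal.Quotient.mk J (X j)) P = Ideal.Quotient.mk J P := by
    intro P
    have h : (aeval (fun j => Ideal.Quotient.mk J (X j)) :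
        MvPolynomial (Fin (N + 1)) (PR n) →ₐ[PR n] _) = Ideal.Quotient.mkₐ (PR n) J := by
      apply MvPolynomial.algHom_ext
      intro j
      rw [aeval_X]
      rfl
    rw [h]
    rfl
  refine ⟨MvPolynomial (Fin (N + 1)) (PR n) ⧸ J, inferInstance, inferInstance,
    fun j => Ideal.Quotient.mk J (X j), ?_, ?_, ?_⟩
  · intro z
    obtain ⟨P, rfl⟩ := Ideal.Quotient.mk_surjective z
    exact ⟨P, haev P⟩
  · intro P hP
    rw [haev, Ideal.Quotient.eq_zero_iff_mem]
    exact hP
  · intro S _ ψ y hy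
    refine ⟨Ideal.Quotient.lift J (eval₂Hom ψ y) hy, ?_, fun j => ?_⟩
    · apply RingHom.ext
      intro r
      show Ideal.Quotient.lift J (eval₂Hom ψ y) hy (Ideal.Quotient.mk J (C r)) = ψ r
      rw [Ideal.Quotient.lift_mk, coe_eval₂Hom, eval₂_C]
    · rw [Ideal.Quotient.lift_mk, coe_eval₂Hom, eval₂_X]

/-- **Uniform bound for one piece.** -/
theorem piece_points (a b : Fin n → ℤ) (I : Set (MvPolynomial (Vars N n) ℤ)) (e : ℕ)
    (hdim : ∀ (Ω : Type) [Field Ω] [CharZero Ω] (c : Fin n → Fin 3 → Ω),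
      (∀ i, OnCurve (a i) (b i) (c i)) →
        ringKrullDim (MvPolynomial (Fin (N + 1)) Ω ⧸ fibreIdeal I c) ≤ e + 1)
    (s : Fin n → Bool) : ∃ C r₀ : ℕ, ∀ (r : ℕ) [Fact r.Prime], r₀ ≤ r →
      ∀ ψ : PR n →+* ZMod r, (∀ i, ψ (weier (a i) (b i) (coordP s i)) = 0) →
      Set.encard {x : Fin (N + 1) → ZMod r | ∀ f ∈ I, eval₂ (Int.castRingHom (ZMod r))
        (Sum.elim x fun p => ψ (coordP s p.1 p.2)) f = 0} ≤ (C * r ^ (e + 1) : ℕ) := by
  obtain ⟨A, _, _, x, hx, hI, hlift⟩ := exists_ring (pieceIdeal a b I s)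
  have hft : Algebra.FiniteType (PR n) A := Algebra.FiniteType.of_surjective _ hx
  obtain ⟨C, g, hg, hC⟩ := encard_points_le (R₀ := ℤ) (R := PR n) (A := A) (e + 1)
    (fun p _ hp => fibre_dim a b I e hdim s A x hx hI p hp)
  refine ⟨C, g.natAbs + 1, fun r hr hr0 ψ hψ => ?_⟩
  have h1 := hC (ZMod r) ψ (by
    rw [eq_intCast, map_intCast, Ne, ZMod.intCast_zmod_eq_zero_iff_dvd]
    intro h
    have h2 := Nat.le_of_dvd (Int.natAbs_pos.mpr hg) (Int.natCast_dvd.mp h)
    omega)
  rw [ZMod.card] at h1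
  refine le_trans ?_ h1
  have hex : ∀ y : Fin (N + 1) → ZMod r, (∀ f ∈ I, eval₂ (Int.castRingHom (ZMod r))
      (Sum.elim y fun p => ψ (coordP s p.1 p.2)) f = 0) →
      ∃ φ : A →+* ZMod r, φ.comp (algebraMap (PR n) A) = ψ ∧ ∀ j, φ (x j) = y j := by
    intro y hy
    refine hlift (ZMod r) ψ y ?_
    have h2 : pieceIdeal a b I s ≤ RingHom.ker (eval₂Hom ψ y) := by
      unfold pieceIdeal
      apply sup_le
      · unfold fibreIdeal
        rw [Ideal.span_le]
        rintro _ ⟨f, hf, rfl⟩
        rw [SetLike.mem_coe, RingHom.mem_ker, coe_eval₂Hom, eval_substitute]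
        exact hy f hf
      · rw [Ideal.span_le]
        rintro _ ⟨i, rfl⟩
        rw [SetLike.mem_coe, RingHom.mem_ker, coe_eval₂Hom, eval₂_C]
        exact hψ i
    exact fun P hP => h2 hP
  have hsub : {y : Fin (N + 1) → ZMod r | ∀ f ∈ I, eval₂ (Int.castRingHom (ZMod r))
        (Sum.elim y fun p => ψ (coordP s p.1 p.2)) f = 0} ⊆
      (fun (φ : A →+* ZMod r) j => φ (x j)) '' {φ | φ.comp (algebraMap (PR n) A) = ψ} := by
    intro y hy
    obtain ⟨φ, hφ, hφ'⟩ := hex y hy
    exact ⟨φ, hφ, funext hφ'⟩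
  exact (Set.encard_le_encard hsub).trans (Set.encard_image_le _ _)

/-- Values of weighted homogeneous polynomials. -/
theorem eval₂_weighted {σ R S : Type*} [CommRing R] [CommRing S] [Fintype σ]
    {f : MvPolynomial σ R} {w : σ → ℕ} {k : ℕ} (hf : f.IsWeightedHomogeneous w k) (g : R →+* S)
    (y : σ → S) (t : S) :
    eval₂ g (fun v => t ^ w v * y v) f = t ^ k * eval₂ g y f := by
  rw [eval₂_eq', eval₂_eq', Finset.mul_sum]
  refine Finset.sum_congr rfl fun m hm => ?_
  have h1 := hf (mem_support_iff.mp hm)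
  have h2 : ∏ v, (t ^ w v * y v) ^ m v = t ^ k * ∏ v, y v ^ m v := by
    simp only [mul_pow]
    rw [Finset.prod_mul_distrib]
    congr 1
    simp only [← pow_mul]
    rw [Finset.prod_pow_eq_pow_sum, ← h1, Finsupp.weight_apply, Finsupp.sum_fintype]
    · congr 1
      refine Finset.sum_congr rfl fun v _ => ?_
      rw [smul_eq_mul, mul_comm]
    · intro v
      rw [zero_smul]
  rw [h2]
  ring

/-- Scaling of the coordinates. -/
theorem eval₂_scale {S : Type*} [CommRing S] [IsDomain S] {f : MvPolynomial (Vars N n) ℤ}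
    (hf : IsMultiHomogeneous f) (x : Fin (N + 1) → S) (c : Fin n → Fin 3 → S) (t₀ : S)
    (t : Fin n → S) (h₀ : t₀ ≠ 0) (ht : ∀ i, t i ≠ 0) :
    eval₂ (Int.castRingHom S) (Sum.elim (fun j => t₀ * x j) fun p => t p.1 * c p.1 p.2) f = 0 ↔
      eval₂ (Int.castRingHom S) (Sum.elim x fun p => c p.1 p.2) f = 0 := by
  classical
  obtain ⟨⟨k₀, hk₀⟩, hk⟩ := hf
  choose k hk using hk
  have h1 : ∀ c : Fin n → Fin 3 → S,
      eval₂ (Int.castRingHom S) (Sum.elim (fun j => t₀ * x j) fun p => c p.1 p.2) f = 0 ↔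
      eval₂ (Int.castRingHom S) (Sum.elim x fun p => c p.1 p.2) f = 0 := by
    intro c
    have h2 := eval₂_weighted hk₀ (Int.castRingHom S) (Sum.elim x fun p => c p.1 p.2) t₀
    have h3 : (fun v => t₀ ^ (Sum.elim (fun _ => 1) (fun _ => 0) v : ℕ) *
        (Sum.elim x (fun p : Fin n × Fin 3 => c p.1 p.2)) v) =
        Sum.elim (fun j => t₀ * x j) fun p => c p.1 p.2 := by
      funext v
      rcases v with j | p
      · simp
      · simp
    rw [h3] at h2
    rw [h2, mul_eq_zero]
    simp [pow_ne_zero _ h₀]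
  refine (h1 fun i j => t i * c i j).trans ?_
  have h2 : ∀ J : Finset (Fin n),
      eval₂ (Int.castRingHom S) (Sum.elim x fun p => (if p.1 ∈ J then t p.1 else 1) * c p.1 p.2) f
        = 0 ↔ eval₂ (Int.castRingHom S) (Sum.elim x fun p => c p.1 p.2) f = 0 := by
    intro J
    induction J using Finset.induction_on with
    | empty => simp
    | insert i J hi ih =>
      rw [← ih]
      have h3 := eval₂_weighted (hk i) (Int.castRingHom S)
        (Sum.elim x fun p => (if p.1 ∈ J then t p.1 else 1) * c p.1 p.2) (t i)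
      have h4 : (fun v => t i ^ (Sum.elim (fun _ => 0)
          (fun p : Fin n × Fin 3 => if p.1 = i then 1 else 0) v : ℕ) *
          (Sum.elim x (fun p : Fin n × Fin 3 =>
            (if p.1 ∈ J then t p.1 else 1) * c p.1 p.2)) v) =
          Sum.elim x fun p => (if p.1 ∈ insert i J then t p.1 else 1) * c p.1 p.2 := by
        funext v
        rcases v with j | p
        · simp
        · by_cases hp : p.1 = i
          · have hp' : p.1 ∉ J := by rw [hp]; exact hi
            simp [hp, hi]
          · simp [hp]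
      rw [h4] at h3
      rw [h3, mul_eq_zero]
      simp [pow_ne_zero _ (ht i)]
  have h3 := h2 Finset.univ
  simpa using h3

/-- **Uniform bound for the number of points of the fibres over finite fields.** -/
theorem points_le (a b : Fin n → ℤ) (I : Set (MvPolynomial (Vars N n) ℤ))
    (hI : ∀ f ∈ I, IsMultiHomogeneous f) (e : ℕ)
    (hdim : ∀ (Ω : Type) [Field Ω] [CharZero Ω] (c : Fin n → Fin 3 → Ω),
      (∀ i, OnCurve (a i) (b i) (c i)) →
        ringKrullDim (MvPolynomial (Fin (N + 1)) Ω ⧸ fibreIdeal I c) ≤ e + 1) :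
    ∃ C r₀ : ℕ, ∀ (r : ℕ) [Fact r.Prime], r₀ ≤ r → ∀ c : Fin n → Fin 3 → ZMod r,
      (∀ i, OnCurve (a i) (b i) (c i)) →
      Set.encard {x : Fin (N + 1) → ZMod r | ∀ f ∈ I, eval₂ (Int.castRingHom (ZMod r))
        (Sum.elim x fun p => c p.1 p.2) f = 0} ≤ (C * r ^ (e + 1) : ℕ) := by
  classical
  choose C r₀ h using piece_points a b I e hdim
  refine ⟨∑ s, C s, ∑ s, r₀ s, fun r hr hr0 c hc => ?_⟩
  -- the piece
  let s : Fin n → Bool := fun i => decide (c i 2 ≠ 0)
  let t : Fin n → ZMod r := fun i => if c i 2 ≠ 0 then c i 2 else c i 1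
  have hinf : ∀ i, c i 2 = 0 → c i 0 = 0 ∧ c i 1 ≠ 0 := by
    intro i h2
    obtain ⟨hc0, hc1⟩ := hc i
    rw [h2, mul_zero, zero_pow two_ne_zero, zero_pow three_ne_zero, mul_zero, mul_zero, add_zero,
      add_zero] at hc1
    have h0 : c i 0 = 0 := by
      rw [← pow_eq_zero_iff three_ne_zero]
      exact hc1.symm
    refine ⟨h0, fun h1 => hc0 ?_⟩
    funext j
    fin_cases j
    · exact h0
    · exact h1
    · exact h2
  have ht : ∀ i, t i ≠ 0 := by
    intro i
    simp only [t]
    split_ifs with h2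
    · exact h2
    · rw [not_not] at h2
      exact (hinf i h2).2
  let ψ : PR n →+* ZMod r := eval₂Hom (Int.castRingHom (ZMod r)) fun p =>
    if p.2 = 0 then c p.1 0 / c p.1 2 else c p.1 1 / c p.1 2
  have hψ : ∀ i j, t i * ψ (coordP s i j) = c i j := by
    intro i j
    by_cases h2 : c i 2 ≠ 0
    · have hs : coordP s i = ![X (i, 0), X (i, 1), 1] := by
        unfold coordP
        rw [if_pos (by simpa [s] using h2)]
      have ht' : t i = c i 2 := if_pos h2
      rw [hs, ht']
      fin_cases j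
      · show c i 2 * ψ (X (i, 0)) = c i 0
        simp only [ψ, coe_eval₂Hom, eval₂_X]
        simp only [if_true]
        field_simp
      · show c i 2 * ψ (X (i, 1)) = c i 1
        simp only [ψ, coe_eval₂Hom, eval₂_X]
        rw [if_neg (by decide)]
        field_simp
      · show c i 2 * ψ 1 = c i 2
        rw [map_one, mul_one]
    · have hs : coordP s i = ![0, 1, 0] := by
        unfold coordP
        rw [if_neg (by simpa [s] using h2)]
      have ht' : t i = c i 1 := if_neg h2
      rw [not_not] at h2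
      rw [hs, ht']
      fin_cases j
      · show c i 1 * ψ 0 = c i 0
        rw [map_zero, mul_zero, (hinf i h2).1]
      · show c i 1 * ψ 1 = c i 1
        rw [map_one, mul_one]
      · show c i 1 * ψ 0 = c i 2
        rw [map_zero, mul_zero, h2]
  have hw : ∀ i, ψ (weier (a i) (b i) (coordP s i)) = 0 := by
    intro i
    rw [← weier_map]
    have h3 : t i ^ 3 * weier (a i) (b i) (fun j => ψ (coordP s i j)) =
        weier (a i) (b i) (c i) := by
      have h4 : c i = fun j => t i * ψ (coordP s i j) := funext fun j => (hψ i j).symm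
      rw [h4]
      unfold weier
      ring
    have h5 : weier (a i) (b i) (c i) = 0 := sub_eq_zero.mpr (hc i).2
    rw [h5, mul_eq_zero] at h3
    exact h3.resolve_left (pow_ne_zero _ (ht i))
  have h1 := h s r ((Finset.single_le_sum (f := r₀) (fun _ _ => Nat.zero_le _)
    (Finset.mem_univ s)).trans hr0) ψ hw
  have hset : {x : Fin (N + 1) → ZMod r | ∀ f ∈ I, eval₂ (Int.castRingHom (ZMod r))
        (Sum.elim x fun p => c p.1 p.2) f = 0} =
      {x : Fin (N + 1) → ZMod r | ∀ f ∈ I, eval₂ (Int.castRingHom (ZMod r))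
        (Sum.elim x fun p => ψ (coordP s p.1 p.2)) f = 0} := by
    ext x
    refine forall₂_congr fun f hf => ?_
    have h3 := eval₂_scale (hI f hf) x (fun i j => ψ (coordP s i j)) 1 t one_ne_zero ht
    rw [← h3]
    have h4 : (fun p : Fin n × Fin 3 => c p.1 p.2) =
        fun p => t p.1 * (fun i j => ψ (coordP s i j)) p.1 p.2 := by
      funext p
      exact (hψ p.1 p.2).symm
    rw [h4]
    simp only [one_mul]
  rw [hset]
  refine h1.trans ?_
  have : C s ≤ ∑ s, C s := Finset.single_le_sum (fun _ _ => Nat.zero_le _) (Finset.mem_univ s)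
  exact_mod_cast Nat.mul_le_mul_right _ this

/-- **Few points of projective space in the fibres over finite fields.** -/
theorem reps (a b : Fin n → ℤ) (I : Set (MvPolynomial (Vars N n) ℤ))
    (hI : ∀ f ∈ I, IsMultiHomogeneous f) (e : ℕ)
    (hdim : ∀ (Ω : Type) [Field Ω] [CharZero Ω] (c : Fin n → Fin 3 → Ω),
      (∀ i, OnCurve (a i) (b i) (c i)) →
        ringKrullDim (MvPolynomial (Fin (N + 1)) Ω ⧸ fibreIdeal I c) ≤ e + 1) :
    ∃ C r₀ : ℕ, ∀ (r : ℕ) [Fact r.Prime], r₀ ≤ r → ∀ c : Fin n → Fin 3 → ZMod r,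
      (∀ i, OnCurve (a i) (b i) (c i)) →
      ∃ Z : Finset (Fin (N + 1) → ZMod r), PI Z ∧ Z.card ≤ C * r ^ e ∧
        ∀ x : Fin (N + 1) → ZMod r, x ≠ 0 → (∀ f ∈ I, eval₂ (Int.castRingHom (ZMod r))
          (Sum.elim x fun p => c p.1 p.2) f = 0) → ∃ z ∈ Z, ∃ t : ZMod r, t ≠ 0 ∧ x = t • z := by
  classical
  obtain ⟨C, r₀, h⟩ := points_le a b I hI e hdim
  refine ⟨2 * C, r₀, fun r hr hr0 c hc => ?_⟩
  have h1 := h r hr0 c hc
  rw [Set.encard_le_coe_iff_finite_ncard_le] at h1
  obtain ⟨hfin, hcard⟩ := h1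
  obtain ⟨Z, hZ, hPI, hrep, hZc⟩ := exists_reps (F := ZMod r) hfin.toFinset
    (by
      intro z hz t
      rw [Set.Finite.mem_toFinset] at hz ⊢
      intro f hf
      obtain ⟨⟨k₀, hk₀⟩, -⟩ := hI f hf
      have h2 := eval₂_weighted hk₀ (Int.castRingHom (ZMod r)) (Sum.elim z fun p => c p.1 p.2) t
      have h3 : (fun v => t ^ (Sum.elim (fun _ => 1) (fun _ => 0) v : ℕ) *
          (Sum.elim z (fun p : Fin n × Fin 3 => c p.1 p.2)) v) =
          Sum.elim (t • z) fun p => c p.1 p.2 := by
        funext v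
        rcases v with j | p
        · simp
        · simp
      rw [h3] at h2
      rw [h2, hz f hf, mul_zero])
  refine ⟨Z, hPI, ?_, fun x hx hx' => hrep x (by rw [Set.Finite.mem_toFinset]; exact hx') hx⟩
  rw [ZMod.card, ← Set.ncard_eq_toFinset_card _ hfin] at hZc
  have h2 : Z.card * (r - 1) ≤ C * r ^ (e + 1) := hZc.trans hcard
  have h3 : 2 ≤ r := hr.out.two_le
  have h4 : r ≤ 2 * (r - 1) := by omega
  have h5 : Z.card * r ≤ 2 * C * r ^ e * r := by
    calc Z.card * r ≤ Z.card * (2 * (r - 1)) := Nat.mul_le_mul_left _ h4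
      _ = 2 * (Z.card * (r - 1)) := by ring
      _ ≤ 2 * (C * r ^ (e + 1)) := Nat.mul_le_mul_left _ h2
      _ = _ := by ring
  exact Nat.le_of_mul_le_mul_right h5 (by omega)

end Pool.Agent.Helper6.CI
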