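import Pool.Agent.Helper6.CI.Main
import Pool.Agent.Helper11.Geo

/-!
From dense rational points to a rational point.
-/

open AlgebraicGeometry CategoryTheory MvPolynomial

namespace Pool.Agent.Helper6.CI

theorem eval₂_ringHom {σ R S : Type} [CommRing R] [CommRing S] (θ : R →+* S)
    (f : MvPolynomial σ ℤ) (y : σ → R) :
    θ (eval₂ (Int.castRingHom R) y f) = eval₂ (Int.castRingHom S) (fun v => θ (y v)) f := by
  rw [hom_eval₂]
  congr 1
  exact RingHom.ext_int _ _

theorem sumElim_comp {N n : ℕ} {R S : Type} (θ : R → S) (x : Fin (N + 1) → R)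
    (c : Fin n → Fin 3 → R) :
    (fun v => θ ((Sum.elim x fun p : Fin n × Fin 3 => c p.1 p.2) v)) =
      Sum.elim (fun j => θ (x j)) fun p => θ (c p.1 p.2) := by
  funext v
  rcases v with j | p <;> rfl

/-- If an integral scheme with dense rational points has a rational map to the scheme given by the
equations, the latter has a rational point. -/
theorem exists_isPoint {N n e : ℕ} {a b : Fin n → ℤ} {I : Set (MvPolynomial (Vars N n) ℤ)}
    {F : Fin e → MvPolynomial (Fin (N + 1)) ℤ} {V : Scheme.{0}} [IsIntegral V]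
    (s : V ⟶ Spec (.of ℚ)) (hdense : Dense (rationalPoints s))
    (x : Fin (N + 1) → V.functionField) (c : Fin n → Fin 3 → V.functionField)
    (h : IsPoint a b I F x c) :
    ∃ (x' : Fin (N + 1) → ℚ) (c' : Fin n → Fin 3 → ℚ), IsPoint a b I F x' c' := by
  classical
  obtain ⟨hx, hc, hI, hF⟩ := h
  obtain ⟨j₀, hj₀⟩ := Function.ne_iff.mp hx
  have hne : ∀ i, ∃ j, c i j ≠ 0 := fun i => Function.ne_iff.mp (hc i).1
  choose k hk using hne
  let u : Fin (N + 1) ⊕ Fin n × Fin 3 → V.functionField := Sum.elim x fun p => c p.1 p.2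
  have hz : x j₀ * ∏ i, c i (k i) ≠ 0 :=
    mul_ne_zero hj₀ (Finset.prod_ne_zero_iff.mpr fun i _ => hk i)
  obtain ⟨R, _, ι, v, zz, φ, hinj, hv, hzz, hφ⟩ :=
    Pool.Agent.Helper11.exists_specialisation s
      (fun i : Fin (Fintype.card (Fin (N + 1) ⊕ Fin n × Fin 3)) =>
        u ((Fintype.equivFin _).symm i)) hz hdense
  let w : Fin (N + 1) ⊕ Fin n × Fin 3 → R := fun t => v (Fintype.equivFin _ t)
  have hw : ∀ t, ι (w t) = u t := fun t => by
    show ι (v (Fintype.equivFin _ t)) = u t
    rw [hv, Equiv.symm_apply_apply]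
  have hwx : ∀ j, ι (w (Sum.inl j)) = x j := fun j => hw _
  have hwc : ∀ i j, ι (w (Sum.inr (i, j))) = c i j := fun i j => hw _
  have hzz' : zz = w (Sum.inl j₀) * ∏ i, w (Sum.inr (i, k i)) := by
    apply hinj
    rw [hzz, map_mul, map_prod, hwx]
    congr 1
    exact Finset.prod_congr rfl fun i _ => (hwc i (k i)).symm
  rw [hzz', map_mul, map_prod] at hφ
  have h1 : φ (w (Sum.inl j₀)) ≠ 0 := left_ne_zero_of_mul hφ
  have h2 : ∀ i, φ (w (Sum.inr (i, k i))) ≠ 0 := fun i =>
    Finset.prod_ne_zero_iff.mp (right_ne_zero_of_mul hφ) i (Finset.mem_univ i)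
  refine ⟨fun j => φ (w (Sum.inl j)), fun i j => φ (w (Sum.inr (i, j))), ?_, fun i => ⟨?_, ?_⟩,
    fun f hf => ?_, fun i => ?_⟩
  · intro h0
    exact h1 (congrFun h0 j₀)
  · intro h0
    exact h2 i (congrFun h0 (k i))
  · have h3 : w (Sum.inr (i, 1)) ^ 2 * w (Sum.inr (i, 2)) = w (Sum.inr (i, 0)) ^ 3 +
        (a i : R) * w (Sum.inr (i, 0)) * w (Sum.inr (i, 2)) ^ 2 +
        (b i : R) * w (Sum.inr (i, 2)) ^ 3 := by
      apply hinj
      simp only [map_mul, map_pow, map_add, map_intCast, hwc]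
      exact (hc i).2
    have h4 := congrArg φ h3
    simpa only [map_mul, map_pow, map_add, map_intCast] using h4
  · have h3 : eval₂ (Int.castRingHom R) w f = 0 := by
      apply hinj
      rw [eval₂_ringHom ι, map_zero]
      have h4 : (fun v => ι (w v)) = Sum.elim x fun p => c p.1 p.2 := funext hw
      rw [h4]
      exact hI f hf
    have h4 := congrArg φ h3
    rw [eval₂_ringHom φ, map_zero] at h4
    rw [← h4]
    congr 1
    funext v
    rcases v with j | p <;> rfl
  · have h3 : eval₂ (Int.castRingHom R) (fun j => w (Sum.inl j)) (F i) = 0 := by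
      apply hinj
      rw [eval₂_ringHom ι, map_zero]
      have h4 : (fun j => ι (w (Sum.inl j))) = x := funext hwx
      rw [h4]
      exact hF i
    have h4 := congrArg φ h3
    rw [eval₂_ringHom φ, map_zero] at h4
    exact h4

end Pool.Agent.Helper6.CI
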