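import Pool.Agent.Helper6.CI.Coords
import Pool.Agent.Helper6.RH.Main
import Pool.Agent.Helper8.DenseLVSieve

/-!
The sieve for complete intersections.
-/

open Finset MvPolynomial Pool.Agent.Helper11.Cov Pool.Agent.Helper6.RH

namespace Pool.Agent.Helper6.CI

/-- the count modulo `r` -/
theorem count_modF {N e : ℕ} (d : Fin e → ℕ) {K : ℕ} (hK : Odd K) {θ C : ℝ}
    (hθ : ∀ (n : ℕ) (p : ℝ), 0 ≤ p → p ≤ 1 / 2 → n * p ≤ C → θ ≤ Pool.Agent.Helper6.RD.bs K n p)
    (hd : ∀ i, K ≤ d i) (he : 1 ≤ e) (r : ℕ) [Fact r.Prime]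
    (Z : Finset (Fin (N + 1) → ZMod r)) (hPI : PI Z) (hZ : (Z.card : ℝ) ≤ C * (r : ℝ) ^ e)
    (b : Idx N d → ZMod r) :
    ∃ SS : Finset (Idx N d → ZMod r),
      (∀ c : Idx N d → ZMod r, (∃ z ∈ Z, ∀ i, ev (fun m => b ⟨i, m⟩ + c ⟨i, m⟩) z = 0) → c ∈ SS) ∧
      (SS.card : ℝ) ≤ (1 - θ) * (r : ℝ) ^ Fintype.card (Idx N d) := by
  obtain ⟨SS, hSS, hbound⟩ := few_solvable (F := ZMod r) d hK hθ hd
    (by rw [Fintype.card_fin]; omega) (fun z i => - ev (fun m => b ⟨i, m⟩) z) Z hPI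
    (by rw [ZMod.card, Fintype.card_fin]; exact hZ)
  have hcard : Fintype.card (Tup (ZMod r) N d) = r ^ Fintype.card (Idx N d) := by
    have e := Fintype.card_congr (Equiv.piCurry (fun (i : Fin e) (_ : Mon N (d i)) => ZMod r))
    rw [← e, Fintype.card_fun, ZMod.card]
  rw [hcard] at hbound
  refine ⟨SS.map (Equiv.piCurry (fun (i : Fin e) (_ : Mon N (d i)) => ZMod r)).symm.toEmbedding,
    ?_, ?_⟩
  · rintro c ⟨z, hz, hz'⟩
    rw [mem_map]
    refine ⟨fun i m => c ⟨i, m⟩, hSS _ ⟨z, hz, fun i => ?_⟩, rfl⟩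
    rw [eq_neg_iff_add_eq_zero, add_comm, ← ev_add]
    exact hz' i
  · rw [card_map]
    push_cast at hbound
    exact hbound

/-- **The sieve for rational points.** -/
theorem main_of {n N e : ℕ} (he : 1 ≤ e) (a b : Fin n → ℤ) (hg : ∀ i, Good (a i) (b i))
    (hkey : Key a b) (I : Set (MvPolynomial (Vars N n) ℤ))
    (hI : ∀ f ∈ I, IsMultiHomogeneous f)
    (hdim : ∀ (Ω : Type) [Field Ω] [CharZero Ω] (c : Fin n → Fin 3 → Ω),
      (∀ i, OnCurve (a i) (b i) (c i)) →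
        ringKrullDim (MvPolynomial (Fin (N + 1)) Ω ⧸ fibreIdeal I c) ≤ e + 1) :
    ∃ D₀ : ℕ, ∀ d : Fin e → ℕ, (∀ i, D₀ ≤ d i) → ∀ ε : ℝ, 0 < ε →
      ∃ H₀ : ℕ, ∀ H : ℕ, H₀ ≤ H → ∀ Φ : Fin e → MvPolynomial (Fin (N + 1)) ℤ,
        (∀ i, (Φ i).IsHomogeneous (d i)) →
        (({F ∈ RH.Box N d H | ∃ (x : Fin (N + 1) → ℚ) (c : Fin n → Fin 3 → ℚ),
          IsPoint a b I (fun i => Φ i + F i) x c}.ncard : ℕ) : ℝ) ≤ ε * (RH.Box N d H).ncard := by
  classical
  obtain ⟨C₀, r₀, hreps⟩ := reps a b I hI e hdim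
  obtain ⟨K, θ, hK, hθ0, hθ2, hθ⟩ := Pool.Agent.Helper6.RD.exists_bs_lower C₀ (Nat.cast_nonneg C₀)
  refine ⟨K, fun d hd ε hε => ?_⟩
  obtain ⟨hgen, hprimes⟩ := hkey
  choose g G hG using hgen
  set gg : ℕ := ∑ i, g i with hgg
  set Kc := Fintype.card (Idx N d) with hKc
  obtain ⟨m, hm2, hmθ⟩ : ∃ m : ℕ, 2 ≤ m ∧ 1 / (2 * (m : ℝ)) ≤ θ := by
    obtain ⟨m, hm⟩ := exists_nat_ge (1 / θ)
    refine ⟨max m 2, le_max_right _ _, ?_⟩
    have h1 : 1 / θ ≤ ((max m 2 : ℕ) : ℝ) := hm.trans (by exact_mod_cast le_max_left _ _)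
    have h2 : (2 : ℝ) ≤ ((max m 2 : ℕ) : ℝ) := by exact_mod_cast le_max_right _ _
    rw [div_le_iff₀ (by linarith)]
    rw [div_le_iff₀ hθ0] at h1
    nlinarith
  obtain ⟨M, R, hM, hR, hbound⟩ := Pool.Agent.Helper8.DenseLV.choose_const m 1 gg Kc hm2 ε hε
    (fun M R => ∀ r ∈ R, r₀ ≤ r ∧ ∃ _ : Fact r.Prime, ∀ i, ∀ P : (E (a i) (b i)).Point,
      InH r (M • P)) (by
    intro C
    obtain ⟨M, hM, R, hR, hcard⟩ := hprimes (|C| + r₀)
    refine ⟨M, R.filter fun r => r₀ ≤ r, hM, fun r hr => ?_, ?_⟩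
    · rw [mem_filter] at hr
      obtain ⟨hF, -, h⟩ := hR r hr.1
      exact ⟨hr.2, hF, h⟩
    · have h1 : R.card ≤ (R.filter fun r => r₀ ≤ r).card + r₀ := by
        rw [← card_filter_add_card_filter_not (s := R) (fun r => r₀ ≤ r)]
        gcongr
        calc (R.filter fun r => ¬ r₀ ≤ r).card ≤ (range r₀).card := by
              apply card_le_card
              intro r hr
              rw [mem_filter, not_le] at hr
              exact mem_range.mpr hr.2
          _ = r₀ := card_range _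
      have h1' : (R.card : ℝ) ≤ ((R.filter fun r => r₀ ≤ r).card : ℝ) + r₀ := by exact_mod_cast h1
      have h2 : (0 : ℝ) ≤ Real.log M := Real.log_natCast_nonneg M
      have h3 : (0 : ℝ) ≤ r₀ := Nat.cast_nonneg _
      have h4 : C ≤ |C| := le_abs_self C
      have h5 : C * (1 + Real.log M) ≤ |C| * (1 + Real.log M) :=
        mul_le_mul_of_nonneg_right h4 (by linarith)
      nlinarith)
  refine ⟨∏ r ∈ R, r, fun H hH Φ hΦ => ?_⟩
  have : NeZero M := ⟨hM.ne'⟩
  have hprime : ∀ j : R, Fact j.1.Prime := fun j => (hR j.1 j.2).2.choose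
  have : ∀ j : R, NeZero j.1 := fun j => ⟨(hprime j).out.ne_zero⟩
  -- the class of a point
  let κ := ∀ i : Fin n, Fin (g i) → ZMod M
  have hκ : Fintype.card κ = M ^ gg := by
    rw [Fintype.card_pi]
    simp only [Fintype.card_pi, ZMod.card, Finset.prod_const, Finset.card_univ, Fintype.card_fin]
    rw [hgg, Finset.prod_pow_eq_pow_sum]
  choose kk hkk using hG
  let cls : (∀ i, (E (a i) (b i)).Point) → κ := fun P i j => (kk i (P i) j : ZMod M)
  have hcls : ∀ P P', cls P = cls P' → ∀ r ∈ R, ∀ _ : Fact r.Prime, ∀ i, InH r (P' i - P i) := by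
    intro P P' h r hr hrF i
    have h1 : ∀ j, (M : ℤ) ∣ kk i (P' i) j - kk i (P i) j := by
      intro j
      have := congrFun (congrFun h i) j
      rw [← ZMod.intCast_zmod_eq_zero_iff_dvd]
      push_cast
      exact sub_eq_zero.mpr this.symm
    choose q hq using h1
    have h2 : P' i - P i = M • (∑ j, q j • G i j) := by
      rw [hkk i (P' i), hkk i (P i), ← Finset.sum_sub_distrib, Finset.smul_sum]
      refine Finset.sum_congr rfl fun j _ => ?_
      rw [← sub_smul, hq j, mul_smul, natCast_zsmul]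
    rw [h2]
    obtain ⟨-, -, h3⟩ := hR r hr
    exact h3 i _
  -- integer coordinates
  choose Ac Bc Dc hrep using fun (i : Fin n) (Q : (E (a i) (b i)).Point) => exists_irep Q
  let cP : (∀ i, (E (a i) (b i)).Point) → ∀ l : ℕ, Fin n → Fin 3 → ZMod l := fun P l i =>
    proj (Ac i (P i) : ZMod l) (Bc i (P i) : ZMod l) (Dc i (P i) : ZMod l)
  have hcurve : ∀ P (j : R), ∀ i, OnCurve (a i) (b i) (cP P j.1 i) := fun P j i => by
    have := hprime j
    exact onCurve_reduce (hrep i (P i)) j.1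
  -- the bad residues
  have hSS : ∀ P (j : R), ∃ SS : Finset (Idx N d → ZMod j.1), (∀ c : Idx N d → ZMod j.1,
      (∃ z : Fin (N + 1) → ZMod j.1, z ≠ 0 ∧ (∀ f ∈ I, eval₂ (Int.castRingHom (ZMod j.1))
        (Sum.elim z fun p => cP P j.1 p.1 p.2) f = 0) ∧
        ∀ i, ev (fun m => ((toVec d Φ ⟨i, m⟩ : ℤ) : ZMod j.1) + c ⟨i, m⟩) z = 0) → c ∈ SS) ∧
      (SS.card : ℝ) ≤ (1 - 1 / (2 * m)) * (j.1 : ℝ) ^ Fintype.card (Idx N d) := by
    intro P j
    have := hprime j
    obtain ⟨Z, hPI, hZ, hZ'⟩ := hreps j.1 (hR j.1 j.2).1 (cP P j.1) (hcurve P j)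
    obtain ⟨SS, h1, h2⟩ := count_modF d hK hθ hd he j.1 Z hPI (by exact_mod_cast hZ)
      (fun p => ((toVec d Φ p : ℤ) : ZMod j.1))
    refine ⟨SS, ?_, h2.trans (mul_le_mul_of_nonneg_right (by linarith) (by positivity))⟩
    rintro c ⟨z, hz0, hz, hzc⟩
    obtain ⟨z', hz', t, ht, rfl⟩ := hZ' z hz0 hz
    refine h1 c ⟨z', hz', fun i => ?_⟩
    have h3 := hzc i
    rw [ev_smul_right, mul_eq_zero] at h3
    exact h3.resolve_left (pow_ne_zero _ ht)
  choose SS hSS1 hSS2 using hSS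
  let Bd : κ → ∀ j : R, Finset (Idx N d → ZMod j.1) := fun k j =>
    if h : ∃ P, cls P = k then SS h.choose j else ∅
  have hm' : (2 : ℝ) ≤ m := by exact_mod_cast hm2
  have hθ' : (0 : ℝ) ≤ 1 - 1 / (2 * m) := by
    rw [sub_nonneg, div_le_one (by positivity)]
    linarith
  have hbad : ∀ k (j : R), (#(Bd k j) : ℝ) ≤ (1 - 1 / (2 * m)) * (j.1 : ℝ) ^ Fintype.card (Idx N d) := by
    intro k j
    simp only [Bd]
    split_ifs with h
    · exact hSS2 _ _
    · simp only [Finset.card_empty, Nat.cast_zero]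
      positivity
  set A := {F ∈ RH.Box N d H | ∃ (x : Fin (N + 1) → ℚ) (c : Fin n → Fin 3 → ℚ),
          IsPoint a b I (fun i => Φ i + F i) x c} with hA
  have hfin : (RH.Box N d H).Finite := by
    refine Set.Finite.of_finite_image ?_ (toVec_injOn d H)
    rw [toVec_image]
    exact Finset.finite_toSet _
  set 𝓑 : Set (Idx N d → ℤ) := toVec d '' A with h𝓑
  have hsieve := box_sieve (ι := Idx N d) (fun j : R => j.1) (fun i j hij => by
      have h1 := (hprime i).out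
      have h2 := (hprime j).out
      exact (Nat.coprime_primes h1 h2).mpr (fun h => hij (Subtype.ext h))) Bd (1 - 1 / (2 * m))
      hθ' hbad H 𝓑 (by
        rintro _ ⟨F, ⟨hF, x, c, hx0, hcurv, hIx, hFx⟩, rfl⟩
        -- integral coordinates
        obtain ⟨ξ, t₀, ht₀, hξ, hprim⟩ := exists_primitive x hx0
        choose P A' B' D' t hrep' ht hc using fun i => exists_point (hg i) (c i) (hcurv i)
        refine ⟨cls P, fun j => ?_⟩
        have := hprime j
        have hex : ∃ P', cls P' = cls P := ⟨P, rfl⟩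
        simp only [Bd, dif_pos hex]
        set P' := hex.choose with hP'
        have hPP' : cls P' = cls P := hex.choose_spec
        apply hSS1
        refine ⟨fun k => (ξ k : ZMod j.1), ?_, ?_, ?_⟩
        · obtain ⟨k, hk⟩ := hprim j.1 (hprime j).out
          intro h0
          apply hk
          rw [← ZMod.intCast_zmod_eq_zero_iff_dvd]
          exact congrFun h0 k
        · intro f hf
          have h1 := reduce_eqn (hI f hf) x c (hIx f hf) ξ t₀ ht₀ hξ A' B' D' t ht hc j.1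
          choose u hu hu' using fun i => proj_cong (r := j.1) (hrep i (P' i)) (hrep' i)
            (hcls P' P hPP' j.1 j.2 (hprime j) i)
          exact reduce_eqn' (hI f hf) (fun k => (ξ k : ZMod j.1))
            (fun i k => proj (A' i : ZMod j.1) (B' i : ZMod j.1) (D' i : ZMod j.1) k)
            (cP P' j.1) u hu hu' h1
        · intro i
          have h2 := reduce_form ((hΦ i).add (hF i).1) x (hFx i) ξ t₀ ht₀ hξ j.1
          have h3 := ev_reduce (RingHom.id (ZMod j.1)) (Φ i + F i) ((hΦ i).add (hF i).1)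
            (fun k => (ξ k : ZMod j.1))
          simp only [RingHom.id_apply] at h3
          rw [h2] at h3
          rw [← h3]
          congr 1
          funext m
          rw [coeff_add]
          push_cast
          rfl)
  have hle : A.ncard ≤ #{c ∈ Pool.Agent.Helper11.Cov.Box (Idx N d) H | c ∈ 𝓑} := by
    rw [← Set.ncard_coe_finset]
    refine Set.ncard_le_ncard_of_injOn (toVec d) ?_ ?_ (Finset.finite_toSet _)
    · intro F hF
      rw [mem_coe, mem_filter]
      refine ⟨?_, F, hF, rfl⟩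
      have : toVec d F ∈ toVec (n := N) d '' RH.Box N d H := ⟨F, hF.1, rfl⟩
      rw [toVec_image] at this
      exact this
    · exact (toVec_injOn d H).mono fun F hF => hF.1
  have hprod : (∏ j : R, (j.1 : ℝ)) ≤ 2 * H + 1 := by
    have h1 : ∏ j : R, (j.1 : ℝ) = ((∏ r ∈ R, r : ℕ) : ℝ) := by
      rw [Finset.prod_coe_sort R (fun r => (r : ℝ))]
      push_cast
      rfl
    rw [h1]
    have h2 : ((∏ r ∈ R, r : ℕ) : ℝ) ≤ H := by exact_mod_cast hH
    have h3 : (0 : ℝ) ≤ H := Nat.cast_nonneg _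
    linarith
  have hprod0 : (0 : ℝ) ≤ ∏ j : R, (j.1 : ℝ) := Finset.prod_nonneg fun j _ => Nat.cast_nonneg _
  rw [RH.ncard_Box]
  calc (A.ncard : ℝ) ≤ #{c ∈ Pool.Agent.Helper11.Cov.Box (Idx N d) H | c ∈ 𝓑} := by
        exact_mod_cast hle
    _ ≤ _ := hsieve
    _ ≤ Fintype.card κ * (1 - 1 / (2 * m)) ^ Fintype.card R * (2 * (2 * H + 1)) ^ Kc := by
      gcongr
      linarith
    _ = (2 ^ Kc * ((M : ℝ) ^ (1 * gg) * (1 - 1 / (2 * m)) ^ R.card)) * (2 * H + 1) ^ Kc := by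
      rw [hκ, Fintype.card_coe, one_mul, mul_pow]
      push_cast
      ring
    _ ≤ ε * (2 * H + 1) ^ Kc := by gcongr
    _ = _ := by push_cast; rfl

end Pool.Agent.Helper6.CI
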