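import Pool.Agent.Helper11.Cov.CM
import Pool.Agent.Helper6.CI.Defs

/-!
Products of elliptic curves with complex multiplication: supersingular primes.
-/

namespace Pool.Agent.Helper6.CI

open WeierstrassCurve Finset Pool.Agent.Helper10.SS Pool.Agent.Helper11.Cov

/-- The number of points of the reduced curve. -/
theorem card_reduced {r : ℕ} [hr : Fact r.Prime] (a b : ℤ) (hg : GoodAt a b r) :
    Nat.card (Er a b r).Point = Nat.card {p : ZMod r × ZMod r //
      p.2 ^ 2 = p.1 ^ 3 + (a : ZMod r) * p.1 + (b : ZMod r)} + 1 := by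
  classical
  obtain ⟨hr2, hd⟩ := hg
  have two : (2 : ZMod r) ≠ 0 := by
    intro h0
    have : ((2 : ℕ) : ZMod r) = 0 := by exact_mod_cast h0
    rw [ZMod.natCast_eq_zero_iff] at this
    exact hr2 ((Nat.prime_dvd_prime_iff_eq hr.out Nat.prime_two).mp this)
  have hΔ : (Er a b r).Δ ≠ 0 := by
    have e : (Er a b r).Δ = -2 ^ 4 * (4 * (a : ZMod r) ^ 3 + 27 * (b : ZMod r) ^ 2) := by
      simp only [EF, WeierstrassCurve.Δ, WeierstrassCurve.b₂, WeierstrassCurve.b₄,
        WeierstrassCurve.b₆, WeierstrassCurve.b₈]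
      ring
    rw [e]
    refine mul_ne_zero (neg_ne_zero.mpr (pow_ne_zero _ two)) ?_
    intro h0
    apply hd
    rw [← ZMod.intCast_zmod_eq_zero_iff_dvd]
    push_cast
    exact h0
  let S : Type := {p : ZMod r × ZMod r // p.2 ^ 2 = p.1 ^ 3 + (a : ZMod r) * p.1 + (b : ZMod r)}
  have heq : ∀ x y : ZMod r, (Er a b r).Equation x y ↔
      y ^ 2 = x ^ 3 + (a : ZMod r) * x + (b : ZMod r) := by
    intro x y
    rw [Affine.equation_iff]
    simp only [EF]
    constructor <;> intro h <;> linear_combination h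
  have hns : ∀ p : S, (Er a b r).Nonsingular p.1.1 p.1.2 := fun p =>
    ((Er a b r).equation_iff_nonsingular_of_Δ_ne_zero hΔ).mp ((heq _ _).mpr p.2)
  have e : Option S ≃ (Er a b r).Point := by
    refine Equiv.ofBijective (fun o => match o with
      | none => Affine.Point.zero
      | some p => .some p.1.1 p.1.2 (hns p)) ⟨?_, ?_⟩
    · rintro (_ | ⟨⟨x, y⟩, h⟩) (_ | ⟨⟨x', y'⟩, h'⟩) hh
      · rfl
      · simp at hh
      · simp at hh
      · simp only [Affine.Point.some.injEq] at hh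
        obtain ⟨rfl, rfl⟩ := hh
        rfl
    · rintro (_ | ⟨x, y, h⟩)
      · exact ⟨none, rfl⟩
      · exact ⟨some ⟨(x, y), (heq x y).mp h.1⟩, rfl⟩
  show _ = Nat.card S + 1
  rw [← Nat.card_congr e, Nat.card_eq_fintype_card, Fintype.card_option,
    ← Nat.card_eq_fintype_card]

/-- There is `m` such that the curve `y² = x³ + a x + b` has `r` affine points (so `r + 1` points)
modulo all large primes `r` that are congruent to `-1` modulo `m`. -/
def Supersingular (a b : ℤ) : Prop :=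
  ∃ m B : ℕ, 0 < m ∧ ∀ r : ℕ, r.Prime → B < r → m ∣ r + 1 →
    Nat.card {p : ZMod r × ZMod r //
      p.2 ^ 2 = p.1 ^ 3 + (a : ZMod r) * p.1 + (b : ZMod r)} = r

/-- The key property. -/
theorem key_ss {n : ℕ} (a b : Fin n → ℤ) (hg : ∀ i, Good (a i) (b i))
    (hab : ∀ i, Supersingular (a i) (b i)) : Key a b := by
  refine ⟨fun i => ?_, fun C => ?_⟩
  · have hell := isElliptic (hg i)
    exact exists_generators (Pool.Agent.Helper51.MW.mordell_weil (E (a i) (b i)))
  · choose m B hm hB using hab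
    set D : ℕ := ∏ i, m i with hD
    have hD0 : 0 < D := Finset.prod_pos fun i _ => hm i
    set B' : ℕ := 3 + ∑ i, (B i + (4 * a i ^ 3 + 27 * b i ^ 2).natAbs) with hB'
    obtain ⟨M, T, hM, hT, hcard⟩ := Pool.Agent.Helper52.SmoothPrimes.smooth_primes_class
      (D := D) hD0 (D - 1) (by
        rw [Nat.coprime_self_sub_left hD0]
        exact Nat.coprime_one_left D) B' C
    refine ⟨M, by omega, T, fun r hr => ?_, hcard⟩
    obtain ⟨⟨hp, hrD⟩, hrB, hrM⟩ := hT r hr
    have hF : Fact r.Prime := ⟨hp⟩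
    refine ⟨hF, by omega, fun i P => ?_⟩
    have hle : B i + (4 * a i ^ 3 + 27 * b i ^ 2).natAbs ≤
        ∑ i, (B i + (4 * a i ^ 3 + 27 * b i ^ 2).natAbs) :=
      Finset.single_le_sum (f := fun i => B i + (4 * a i ^ 3 + 27 * b i ^ 2).natAbs)
        (fun _ _ => Nat.zero_le _) (Finset.mem_univ i)
    have hgood : GoodAt (a i) (b i) r := by
      refine ⟨by omega, fun hd => ?_⟩
      have h1 := Int.natCast_dvd.mp hd
      have h2 := Nat.le_of_dvd (Int.natAbs_pos.mpr (hg i)) h1
      omega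
    have hdvd : m i ∣ r + 1 := by
      have h1 : D ∣ r + 1 := by
        have h2 : (r + 1) % D = (D - 1 + 1) % D := by
          rw [Nat.add_mod, hrD, ← Nat.add_mod]
        rw [Nat.sub_add_cancel hD0, Nat.mod_self] at h2
        exact Nat.dvd_of_mod_eq_zero h2
      exact (Finset.dvd_prod_of_mem m (Finset.mem_univ i)).trans h1
    have h3 := hB i r hp (by omega) hdvd
    obtain ⟨q, hq⟩ := hrM
    have key : InH r ((r + 1) • P) := kill_of_card hgood
      (by rw [card_reduced (a i) (b i) hgood, h3]) P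
    have := key.nsmul q
    rwa [smul_smul, mul_comm, ← hq] at this

theorem supersingular_a (a : ℤ) (ha : a ≠ 0) : Supersingular a 0 := by
  refine ⟨4, 3 + (4 * a ^ 3 + 27 * (0 : ℤ) ^ 2).natAbs + a.natAbs, by norm_num, fun r hp hr h4 => ?_⟩
  have hF : Fact r.Prime := ⟨hp⟩
  have hgood : GoodAt a 0 r := by
    refine ⟨by omega, fun hd => ?_⟩
    have h1 := Int.natCast_dvd.mp hd
    have h2 := Nat.le_of_dvd (Int.natAbs_pos.mpr (by
      have : 4 * a ^ 3 ≠ 0 := mul_ne_zero (by norm_num) (pow_ne_zero _ ha)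
      simpa using this)) h1
    omega
  have ha' : (a : ZMod r) ≠ 0 := by
    rw [Ne, ZMod.intCast_zmod_eq_zero_iff_dvd]
    intro hd
    have h2 := Nat.le_of_dvd (Int.natAbs_pos.mpr ha) (Int.natCast_dvd.mp hd)
    omega
  have h1 := card_reduced a 0 hgood
  have e : Er a 0 r = EF (a : ZMod r) 0 := by
    simp [Er]
  rw [e, card_point (a : ZMod r) ha' (by omega)] at h1
  omega

theorem supersingular_b (b : ℤ) (hb : b ≠ 0) : Supersingular 0 b := by
  refine ⟨3, 3 + (4 * (0 : ℤ) ^ 3 + 27 * b ^ 2).natAbs + b.natAbs, by norm_num, fun r hp hr h3 => ?_⟩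
  have hF : Fact r.Prime := ⟨hp⟩
  have hgood : GoodAt 0 b r := by
    refine ⟨by omega, fun hd => ?_⟩
    have h1 := Int.natCast_dvd.mp hd
    have h2 := Nat.le_of_dvd (Int.natAbs_pos.mpr (by
      have : 27 * b ^ 2 ≠ 0 := mul_ne_zero (by norm_num) (pow_ne_zero _ hb)
      simpa using this)) h1
    omega
  have hb' : (b : ZMod r) ≠ 0 := by
    rw [Ne, ZMod.intCast_zmod_eq_zero_iff_dvd]
    intro hd
    have h2 := Nat.le_of_dvd (Int.natAbs_pos.mpr hb) (Int.natCast_dvd.mp hd)
    omega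
  have h1 := card_reduced 0 b hgood
  have e : Er 0 b r = EF 0 (b : ZMod r) := by
    simp [Er]
  rw [e, card_point_b (b : ZMod r) hb' (by omega) (by omega)] at h1
  omega

end Pool.Agent.Helper6.CI
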